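import Pool.Agent.MP_3ce0a0_al.H79.Y3B

/-
Shape B does not occur.
-/

namespace Pool.Agent.MP_3ce0a0_al.H79.Y

open Equiv Module Pool.Agent.MP_3ce0a0_al.H79.X

namespace H96

variable {H : Type} [AddCommGroup H] [Module ℂ H] {N : NS (Fin 3) (GH H)} {U : Submodule ℂ H}

/-- the standing assumptions. -/
structure St (N : NS (Fin 3) (GH H)) (U : Submodule ℂ H) : Prop where
  db : DB N.toWS U
  kε : ∀ a, ∀ v ∈ U, N.ε a v ∈ U
  kρ : ∀ a b, a ≠ b → ∀ v ∈ U, N.ρ a b v ∈ U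

namespace St

variable (h : St N U) {a b c : Fin 3}
include h

lemma dec (d : D3 a b c) {u : H} (hu : u ∈ U) : ∃ x y z, x ∈ U ⊓ Se N.toWS {a} ∧
    y ∈ U ⊓ Se N.toWS {b} ∧ z ∈ U ⊓ Se N.toWS {c} ∧ u = x + y + z := by
  refine ⟨_, _, _, ⟨pr_keep {a} h.kε hu, pr_mem _ _⟩, ⟨pr_keep {b} h.kε hu, pr_mem _ _⟩,
    ⟨pr_keep {c} h.kε hu, pr_mem _ _⟩, ?_⟩
  refine Submodule.iSup_induction (fun i => Se N.toWS {i})
    (motive := fun w => w = pr N.toWS {a} w + pr N.toWS {b} w + pr N.toWS {c} w) (h.db.1 hu)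
    ?_ (by simp) ?_
  · intro i w hw
    obtain ⟨d1, d2, d3⟩ := d
    rcases D3.cover ⟨d1, d2, d3⟩ i with rfl | rfl | rfl <;>
      simp [pr_of hw, d1, d2, d3, d1.symm, d2.symm, d3.symm]
  · intro x y hx hy
    simp only [map_add]
    linear_combination (norm := module) hx + hy

lemma dd {u : H} (hu : u ∈ U) : DD N.toWS u = -u := by
  obtain ⟨x, y, z, hx, hy, hz, rfl⟩ := h.dec (a := 0) (b := 1) (c := 2) (by unfold D3; decide) hu
  rw [map_add, map_add, DD_one hx.2, DD_one hy.2, DD_one hz.2]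
  module

lemma lam (hab : a ≠ b) {u : H} (hu : u ∈ U) : N.lam a b u = N.ρ a b u := by
  rw [lam_eq N hab, gmul, gmul, h.dd hu, map_neg, map_neg, h.dd (h.kρ a b hab u hu), neg_neg]

lemma row (d : D3 a b c) {u : H} (hu : u ∈ U) : N.ρ a b (N.ρ a c u) = N.ρ a c (N.ρ a b u) := by
  have := gap (ρ_lam_same N d.1 d.2.1.symm).eq u
  rwa [gmul, gmul, h.lam d.2.1.symm hu, h.lam d.2.1.symm (h.kρ a b d.1 u hu)] at this

lemma neg (d : D3 a b c) {u : H} (hu : u ∈ U) (e : N.ε c u = -u) : u ∈ U ⊓ Se N.toWS {c} := by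
  obtain ⟨x, y, z, hx, hy, hz, rfl⟩ := h.dec d hu
  rw [map_add, map_add, Se_pos hx.2 (a := c) (by simpa using d.2.1),
    Se_pos hy.2 (a := c) (by simpa using d.2.2), Se_neg hz.2 (a := c) (by simp)] at e
  have : x + y = 0 := half (by linear_combination (norm := module) e)
  rwa [this, zero_add]

lemma pos (d : D3 a b c) {u : H} (hu : u ∈ U) (e : N.ε c u = u) :
    ∃ x y, x ∈ U ⊓ Se N.toWS {a} ∧ y ∈ U ⊓ Se N.toWS {b} ∧ u = x + y := by
  obtain ⟨x, y, z, hx, hy, hz, rfl⟩ := h.dec d hu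
  rw [map_add, map_add, Se_pos hx.2 (a := c) (by simpa using d.2.1),
    Se_pos hy.2 (a := c) (by simpa using d.2.2), Se_neg hz.2 (a := c) (by simp)] at e
  have : z = 0 := half (by linear_combination (norm := module) -e)
  exact ⟨x, y, hx, hy, by rw [this, add_zero]⟩

lemma third (d : D3 a b c) {v : H} (hv : v ∈ U ⊓ Se N.toWS {c}) : N.ρ a b v = -v := by
  have h1 : N.ρ a b v ∈ U ⊓ Se N.toWS {c} := by
    refine h.neg d (h.kρ a b d.1 v hv.1) ?_
    have := gap (N.ε_other a b c d.1 d.2.1 d.2.2).eq v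
    rwa [gmul, gmul, Se_neg hv.2 (a := c) (by simp), map_neg] at this
  have h2 := gap (N.π_ρ (swap a b) a b d.1) v
  rw [gmul, gmul, h.db.2 a b c d _ h1, h.db.2 a b c d _ hv, map_neg, swap_apply_left,
    swap_apply_right, neg_inj] at h2
  have h3 := gap (N.gersten a b d.1) v
  rwa [gmul, gmul, gmul, h.lam d.1 hv.1, h2, ginv', Se_pos hv.2 (a := b) (by simpa using d.2.2.symm),
    h.db.2 a b c d _ hv] at h3

lemma fix (d : D3 a b c) {v : H} (hv : v ∈ U) (e1 : N.ρ c b v = -v) (e2 : N.ρ a c v = -v) :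
    N.ρ a b v = v := by
  have h1 := gap (stein N d.perm.2.2.1) v
  have h2 := gap (ρ_ρ_col N d).eq v
  simp only [gmul] at h1 h2
  rw [← h2, e2, e1, map_neg, map_neg, map_neg, e1, ← h.row d hv, e2, map_neg, neg_neg,
    neg_neg] at h1
  exact h1.symm

lemma one (d : D3 a b c) {v : H} (hv : v ∈ U ⊓ Se N.toWS {b}) (e : N.ρ c b v = -v) : v = 0 := by
  have h1 := h.fix d hv.1 e (h.third d.perm.2.1 hv)
  have h2 := gap (stein N d) v
  simp only [gmul, e, map_neg, h1, h.third d.perm.2.2.2.2 hv, neg_neg] at h2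
  exact half h2.symm

lemma two (d : D3 a b c) {v : H} (hv : v ∈ U ⊓ Se N.toWS {a}) (e : N.ρ a c v = -v) : v = 0 := by
  have h1 := h.fix d hv.1 (h.third d.perm.2.2.1 hv) e
  have h2 := gap (stein N d.perm.2.2.2.1) v
  simp only [gmul, e, map_neg, h1, h.third d.perm.2.2.2.1 hv, neg_neg] at h2
  exact half h2.symm

lemma split (d : D3 a b c) {v : H} (hv : v ∈ U) (e : N.ε c v = v) :
    ∃ x y, x ∈ U ⊓ Se N.toWS {a} ∧ y ∈ U ⊓ Se N.toWS {b} ∧ N.ρ a b v = x + y := by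
  refine h.pos d (h.kρ a b d.1 v hv) ?_
  have := gap (N.ε_other a b c d.1 d.2.1 d.2.2).eq v
  rwa [gmul, gmul, e] at this

lemma left (d : D3 a b c) {v : H} (hv : v ∈ U ⊓ Se N.toWS {a}) :
    N.ρ a b v ∈ U ⊓ Se N.toWS {a} := by
  obtain ⟨x, y, hx, hy, e⟩ := h.split d hv.1 (Se_pos hv.2 (by simpa using d.2.1))
  have h1 := gap (ρ_ρ_col N d).eq v
  rw [gmul, gmul, h.third d.perm.2.2.1 hv, map_neg, e, map_add, h.third d.perm.2.2.1 hx] at h1
  rwa [e, h.one d hy (by linear_combination (norm := module) -h1), add_zero]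

lemma right (d : D3 a b c) {v : H} (hv : v ∈ U ⊓ Se N.toWS {b}) :
    N.ρ a b v ∈ U ⊓ Se N.toWS {b} := by
  obtain ⟨x, y, hx, hy, e⟩ := h.split d hv.1 (Se_pos hv.2 (by simpa using d.2.2))
  have h1 := h.row d hv.1
  rw [h.third d.perm.2.1 hv, map_neg, e, map_add, h.third d.perm.2.1 hy] at h1
  rwa [e, h.two d hx (by linear_combination (norm := module) -h1), zero_add]

lemma zero (d : D3 a b c) {v : H} (hv : v ∈ U ⊓ Se N.toWS {a}) : v = 0 := by
  have h1 := h.left d hv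
  have h2 := h.right d.perm.1 h1
  have h3 := gap (N.gersten a b d.1) v
  rw [gmul, gmul, gmul, h.lam d.1 hv.1, ρ_inv N d.1.symm, gmul, gmul,
    Se_neg h1.2 (a := a) (by simp), map_neg, map_neg, Se_neg h2.2 (a := a) (by simp), neg_neg,
    Se_pos hv.2 (a := b) (by simpa using d.1.symm)] at h3
  have h4 := π_Se (swap a b) hv.2
  rw [Finset.map_singleton, Equiv.coe_toEmbedding, swap_apply_left] at h4
  have h5 := Se_disj (I := {a}) (J := {b}) (by simpa using d.1) (h3 ▸ (h.left d h2).2) h4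
  exact (LinearEquiv.map_eq_zero_iff _).1 h5

end St

end H96

theorem sb : SB := by
  intro H _ _ _ N U h1 h2 _ h4
  have h : H96.St N U := ⟨h1, h2, h4⟩
  have d : D3 0 1 2 := by unfold D3; decide
  refine (Submodule.eq_bot_iff U).2 fun u hu => ?_
  obtain ⟨x, y, z, hx, hy, hz, rfl⟩ := h.dec d hu
  rw [h.zero d hx, h.zero d.perm.1 hy, h.zero d.perm.2.2.1 hz, add_zero, add_zero]

end Pool.Agent.MP_3ce0a0_al.H79.Y
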